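import Mathlib

/-!
# MP_2354fb_co : a vertex-transitive polytope that realizes all symmetries of its edge graph, has an
irreducible symmetry group, and is not combinatorially equivalent to a spectral polytope
-/

namespace Pool.Agent.Results.MP_2354fb_co.NotSpectral

open Module

/-- `ℝ^d` with its Euclidean structure. -/
abbrev E (d : ℕ) := EuclideanSpace ℝ (Fin d)

/-- A polytope in `ℝ^d`, given by the finite set `verts` of its vertices: every element of `verts`
is a vertex (a one-point face) of the convex hull of `verts`. -/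
structure Polytope (d : ℕ) where
  /-- the vertices -/
  verts : Finset (E d)
  /-- every element of `verts` is a vertex of the convex hull -/
  vertex : ∀ v ∈ verts, IsExposed ℝ (convexHull ℝ (verts : Set (E d))) {v}

variable {d e : ℕ}

/-- The polytope as a point set: the convex hull of its vertices. -/
def Polytope.body (P : Polytope d) : Set (E d) := convexHull ℝ (P.verts : Set (E d))

/-- The faces of a polytope: the exposed subsets (including `∅` and the polytope itself). -/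
def Polytope.Face (P : Polytope d) : Type := {F : Set (E d) // IsExposed ℝ P.body F}

/-- The face lattice: faces ordered by inclusion. -/
instance (P : Polytope d) : PartialOrder P.Face := Subtype.partialOrder _

/-- Two polytopes are combinatorially equivalent if their face lattices are isomorphic. -/
def CombEquiv (P : Polytope d) (Q : Polytope e) : Prop := Nonempty (P.Face ≃o Q.Face)

/-- The edge graph: two distinct vertices are adjacent if the segment between them is a face. -/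
def Polytope.edgeGraph (P : Polytope d) : SimpleGraph P.verts where
  Adj u v := u ≠ v ∧ IsExposed ℝ P.body (segment ℝ (u : E d) (v : E d))
  symm := ⟨fun u v h => ⟨h.1.symm, by rw [segment_symm]; exact h.2⟩⟩
  loopless := ⟨fun u h => h.1 rfl⟩

/-- The orthogonal maps of `ℝ^d` (linear isometric bijections). -/
abbrev Iso (d : ℕ) : Type := E d ≃ₗᵢ[ℝ] E d

/-- The value `g x`. -/
noncomputable def Iso.act (g : Iso d) (x : E d) : E d := g x

/-- Orthogonal maps of `ℝ^d` which map the polytope onto itself. -/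
def Polytope.Aut (P : Polytope d) : Set (Iso d) := {g | g.act '' P.body = P.body}

/-- The polytope is full-dimensional: it has interior points. -/
def Polytope.FullDimensional (P : Polytope d) : Prop := (interior P.body).Nonempty

/-- The barycenter of the vertices is the origin. -/
def Polytope.Centered (P : Polytope d) : Prop := ∑ v ∈ P.verts, v = 0

/-- Condition (i): vertex-transitive. -/
def Polytope.VertexTransitive (P : Polytope d) : Prop :=
  ∀ u v : P.verts, ∃ g ∈ P.Aut, g.act u = v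

/-- Condition (ii): every automorphism of the edge graph is induced by an element of `Aut`. -/
def Polytope.RealizesSymmetries (P : Polytope d) : Prop :=
  ∀ φ : P.edgeGraph ≃g P.edgeGraph, ∃ g ∈ P.Aut, ∀ v : P.verts, g.act v = φ v

/-- Condition (iii): `Aut` is irreducible. -/
def Polytope.Irreducible (P : Polytope d) : Prop :=
  ∀ W : Submodule ℝ (E d), (∀ g ∈ P.Aut, ∀ x ∈ W, g.act x ∈ W) → W = ⊥ ∨ W = ⊤

open Classical in
/-- The real adjacency matrix of the edge graph. -/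
noncomputable def Polytope.adjMat (P : Polytope d) : Matrix P.verts P.verts ℝ :=
  P.edgeGraph.adjMatrix ℝ

/-- `Φ` is a matrix (rows indexed by the vertices, `n` columns) whose columns form a basis of the
`θ`-eigenspace `{f | A f = θ f}` of the edge graph. -/
def Polytope.IsEigenMatrix (P : Polytope d) (θ : ℝ) {n : ℕ} (Φ : P.verts → Fin n → ℝ) : Prop :=
  LinearIndependent ℝ (fun j v => Φ v j) ∧
    ∀ f : P.verts → ℝ, P.adjMat.mulVec f = (fun v => θ * f v) ↔
      f ∈ Submodule.span ℝ (Set.range fun j v => Φ v j)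

/-- The invertible linear maps from `ℝ^d` to `ℝ^n`. -/
abbrev LinIso (d n : ℕ) : Type := E d ≃ₗ[ℝ] (Fin n → ℝ)

/-- The value `T x`. -/
noncomputable def LinIso.act {n : ℕ} (T : LinIso d n) (x : E d) : Fin n → ℝ := T x

/-- A polytope is spectral if there are an eigenvalue `θ` of the adjacency matrix of its edge
graph, a matrix `Φ` whose `n ≥ 1` columns form a basis of the `θ`-eigenspace, and an invertible
linear map which sends the polytope onto the `θ`-eigenpolytope (the convex hull of the rows of `Φ`)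
and every vertex `v` to the `v`-th row. -/
def Polytope.IsSpectral (P : Polytope d) : Prop :=
  ∃ (θ : ℝ) (n : ℕ) (Φ : P.verts → Fin n → ℝ) (T : LinIso d n), 1 ≤ n ∧ P.IsEigenMatrix θ Φ ∧
    T.act '' P.body = convexHull ℝ (Set.range Φ) ∧ ∀ v : P.verts, T.act v = Φ v

/-! ### Faces of a polytope -/

theorem mem_face {s : Finset (E d)} {l : E d →L[ℝ] ℝ} {c : ℝ} (hle : ∀ v ∈ s, l v ≤ c) {x : E d}
    (hx : x ∈ convexHull ℝ (s : Set (E d))) (hc : l x = c) :
    x ∈ convexHull ℝ {v | v ∈ s ∧ l v = c} := by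
  classical
  rw [Finset.mem_convexHull'] at hx
  obtain ⟨w, hw0, hw1, hwx⟩ := hx
  have hsum : ∑ y ∈ s, w y * (c - l y) = 0 := by
    have h1 : l x = ∑ y ∈ s, w y * l y := by
      rw [← hwx, map_sum]; simp
    have h2 : ∑ y ∈ s, w y * (c - l y) = (∑ y ∈ s, w y) * c - ∑ y ∈ s, w y * l y := by
      rw [Finset.sum_mul, ← Finset.sum_sub_distrib]
      exact Finset.sum_congr rfl fun y _ => by ring
    rw [h2, hw1, ← h1, hc]; ring
  have hz : ∀ y ∈ s, w y * (c - l y) = 0 :=
    (Finset.sum_eq_zero_iff_of_nonneg fun y hy =>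
      mul_nonneg (hw0 y hy) (sub_nonneg.2 (hle y hy))).1 hsum
  have hset : {v | v ∈ s ∧ l v = c} = ((s.filter fun v => l v = c : Finset (E d)) : Set (E d)) := by
    ext v; simp
  rw [hset, Finset.mem_convexHull']
  refine ⟨w, fun y hy => hw0 y (Finset.mem_filter.1 hy).1, ?_, ?_⟩
  · rw [← hw1, Finset.sum_filter]
    refine Finset.sum_congr rfl fun y hy => ?_
    split_ifs with h
    · rfl
    · rcases mul_eq_zero.1 (hz y hy) with h' | h'
      · exact h'.symm
      · exact absurd (by linarith) h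
  · rw [← hwx, Finset.sum_filter]
    refine Finset.sum_congr rfl fun y hy => ?_
    split_ifs with h
    · rfl
    · rcases mul_eq_zero.1 (hz y hy) with h' | h'
      · rw [h', zero_smul]
      · exact absurd (by linarith) h

theorem isExposed_of_le {s : Finset (E d)} (l : E d →L[ℝ] ℝ) (c : ℝ) (hle : ∀ v ∈ s, l v ≤ c) :
    IsExposed ℝ (convexHull ℝ (s : Set (E d))) (convexHull ℝ {v | v ∈ s ∧ l v = c}) := by
  intro hne
  refine ⟨l, ?_⟩
  have hsub : {v | v ∈ s ∧ l v = c} ⊆ (s : Set (E d)) := fun v hv => hv.1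
  have hmax : ∀ y ∈ convexHull ℝ (s : Set (E d)), l y ≤ c := by
    intro y hy
    have : convexHull ℝ (s : Set (E d)) ⊆ {y | l y ≤ c} :=
      convexHull_min (fun v hv => hle v hv) (convex_halfSpace_le l.isLinear c)
    exact this hy
  have heq : ∀ y ∈ convexHull ℝ {v | v ∈ s ∧ l v = c}, l y = c := by
    intro y hy
    have : convexHull ℝ {v | v ∈ s ∧ l v = c} ⊆ {y | l y = c} :=
      convexHull_min (fun v hv => hv.2) (convex_hyperplane l.isLinear c)
    exact this hy
  ext x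
  constructor
  · intro hx
    exact ⟨convexHull_mono hsub hx, fun y hy => by rw [heq x hx]; exact hmax y hy⟩
  · rintro ⟨hx, hx'⟩
    obtain ⟨y, hy⟩ := hne
    have h1 := hx' y (convexHull_mono hsub hy)
    rw [heq y hy] at h1
    exact mem_face hle hx (le_antisymm (hmax x hx) h1)

theorem face_eq (P : Polytope d) (F : P.Face) :
    F.1 = convexHull ℝ {v | v ∈ P.verts ∧ v ∈ F.1} := by
  obtain ⟨F, hF⟩ := F
  have hconv : Convex ℝ F := hF.convex (convex_convexHull ℝ _)
  apply Set.Subset.antisymm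
  · intro x hx
    obtain ⟨l, hl⟩ := hF ⟨x, hx⟩
    have hx' : x ∈ F := hx
    rw [hl] at hx'
    have hle : ∀ v ∈ P.verts, l v ≤ l x := fun v hv => hx'.2 v (subset_convexHull ℝ _ hv)
    have := mem_face hle hx'.1 rfl
    refine convexHull_mono ?_ this
    rintro v ⟨hv, hv'⟩
    refine ⟨hv, ?_⟩
    change v ∈ F
    rw [hl]
    exact ⟨subset_convexHull ℝ _ hv, fun y hy => by rw [hv']; exact hx'.2 y hy⟩
  · exact convexHull_min (fun v hv => hv.2) hconv

/-- The empty face is the least face. -/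
instance (P : Polytope d) : OrderBot P.Face where
  bot := ⟨∅, isExposed_empty⟩
  bot_le F := Set.empty_subset F.1

/-- The face of a vertex. -/
def Polytope.vface (P : Polytope d) (v : P.verts) : P.Face := ⟨{(v : E d)}, P.vertex v v.2⟩

theorem vface_le (P : Polytope d) (v : P.verts) (F : P.Face) :
    P.vface v ≤ F ↔ (v : E d) ∈ F.1 := by
  change ({(v : E d)} : Set (E d)) ⊆ F.1 ↔ _
  exact Set.singleton_subset_iff

theorem isAtom_iff (P : Polytope d) (F : P.Face) : IsAtom F ↔ ∃ v, P.vface v = F := by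
  constructor
  · intro h
    have hne : F.1.Nonempty := by
      rw [Set.nonempty_iff_ne_empty]
      intro h0
      exact h.1 (Subtype.ext h0)
    rw [face_eq] at hne
    obtain ⟨v, hv, hv'⟩ := convexHull_nonempty_iff.1 hne
    refine ⟨⟨v, hv⟩, ?_⟩
    rcases h.le_iff.1 ((vface_le P ⟨v, hv⟩ F).2 hv') with h1 | h1
    · have := congrArg Subtype.val h1
      exact absurd this (Set.singleton_ne_empty v)
    · exact h1
  · rintro ⟨v, rfl⟩
    refine ⟨fun h => Set.singleton_ne_empty _ (congrArg Subtype.val h), fun G hG => ?_⟩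
    have hlt : G.1 ⊂ {(v : E d)} := by
      refine ⟨hG.1, hG.2⟩
    exact Subtype.ext (Set.ssubset_singleton_iff.1 hlt)

theorem vface_inj (P : Polytope d) {u v : P.verts} (h : P.vface u = P.vface v) : u = v := by
  have := congrArg Subtype.val h
  exact Subtype.ext (Set.singleton_injective this)

theorem vertex_mem_segment (P : Polytope d) (u v w : P.verts)
    (h : (w : E d) ∈ segment ℝ (u : E d) (v : E d)) : w = u ∨ w = v := by
  obtain ⟨l, hl⟩ := P.vertex w w.2 ⟨_, rfl⟩
  have hw : (w : E d) ∈ ({(w : E d)} : Set (E d)) := rfl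
  rw [hl] at hw
  by_contra hne
  push Not at hne
  have key : ∀ t : P.verts, w ≠ t → l t < l w := by
    intro t ht
    have h1 := hw.2 t (subset_convexHull ℝ _ t.2)
    refine lt_of_le_of_ne h1 fun h2 => ht ?_
    have : (t : E d) ∈ ({(w : E d)} : Set (E d)) := by
      rw [hl]
      exact ⟨subset_convexHull ℝ _ t.2, fun y hy => by rw [h2]; exact hw.2 y hy⟩
    exact (Subtype.ext this).symm
  obtain ⟨a, b, ha, hb, hab, hx⟩ := h
  have h1 := key u hne.1
  have h2 := key v hne.2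
  have h3 : l w = a * l u + b * l v := by rw [← hx]; simp
  have : a * l u + b * l v < l w := by
    rcases ha.eq_or_lt with h0 | h0
    · have : b = 1 := by linarith
      rw [← h0, this]; linarith
    · calc a * l u + b * l v < a * l w + b * l w := by
            have := mul_lt_mul_of_pos_left h1 h0
            have := mul_le_mul_of_nonneg_left h2.le hb
            linarith
        _ = l w := by rw [← add_mul, hab, one_mul]
  linarith

theorem adj_iff (P : Polytope d) (u v : P.verts) : P.edgeGraph.Adj u v ↔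
    u ≠ v ∧ ∃ F : P.Face, ∀ w : P.verts, (w : E d) ∈ F.1 ↔ w = u ∨ w = v := by
  constructor
  · rintro ⟨h1, h2⟩
    refine ⟨h1, ⟨_, h2⟩, fun w => ⟨vertex_mem_segment P u v w, ?_⟩⟩
    rintro (rfl | rfl)
    · exact left_mem_segment ℝ _ _
    · exact right_mem_segment ℝ _ _
  · rintro ⟨h1, F, hF⟩
    refine ⟨h1, ?_⟩
    have : F.1 = segment ℝ (u : E d) (v : E d) := by
      rw [face_eq, ← convexHull_pair]
      congr 1
      ext w
      change (w ∈ P.verts ∧ w ∈ F.1) ↔ (w = u ∨ w = v)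
      constructor
      · rintro ⟨hw, hw'⟩
        rcases (hF ⟨w, hw⟩).1 hw' with h | h
        · exact Or.inl (congrArg Subtype.val h)
        · exact Or.inr (congrArg Subtype.val h)
      · rintro (rfl | rfl)
        · exact ⟨u.2, (hF u).2 (Or.inl rfl)⟩
        · exact ⟨v.2, (hF v).2 (Or.inr rfl)⟩
    rw [← this]
    exact F.2

theorem transport {P : Polytope d} {Q : Polytope e} (Ψ : P.Face ≃o Q.Face) :
    ∃ ρ : P.verts ≃ Q.verts, (∀ v F, ((ρ v : Q.verts) : E e) ∈ (Ψ F).1 ↔ (v : E d) ∈ F.1) ∧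
      ∀ u v, Q.edgeGraph.Adj (ρ u) (ρ v) ↔ P.edgeGraph.Adj u v := by
  have h1 : ∀ v : P.verts, ∃ w : Q.verts, Q.vface w = Ψ (P.vface v) := fun v =>
    (isAtom_iff Q _).1 ((OrderIso.isAtom_iff Ψ _).2 ((isAtom_iff P _).2 ⟨v, rfl⟩))
  have h2 : ∀ w : Q.verts, ∃ v : P.verts, P.vface v = Ψ.symm (Q.vface w) := fun w =>
    (isAtom_iff P _).1 ((OrderIso.isAtom_iff Ψ.symm _).2 ((isAtom_iff Q _).2 ⟨w, rfl⟩))
  choose f hf using h1
  choose g hg using h2
  have hgf : ∀ v, g (f v) = v := fun v => vface_inj P (by rw [hg, hf]; simp)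
  have hfg : ∀ w, f (g w) = w := fun w => vface_inj Q (by rw [hf, hg]; simp)
  have hmem : ∀ v F, ((f v : Q.verts) : E e) ∈ (Ψ F).1 ↔ (v : E d) ∈ F.1 := by
    intro v F
    rw [← vface_le, ← vface_le, hf]
    exact Ψ.le_iff_le
  refine ⟨⟨f, g, hgf, hfg⟩, hmem, fun u v => ?_⟩
  rw [adj_iff, adj_iff]
  change (f u ≠ f v ∧ _) ↔ _
  constructor
  · rintro ⟨h1, F, hF⟩
    refine ⟨fun h => h1 (by rw [h]), Ψ.symm F, fun w => ?_⟩
    rw [← hmem, OrderIso.apply_symm_apply, hF (f w)]
    constructor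
    · rintro (h | h)
      · left; rw [← hgf w, h]; exact hgf u
      · right; rw [← hgf w, h]; exact hgf v
    · rintro (rfl | rfl)
      · exact Or.inl rfl
      · exact Or.inr rfl
  · rintro ⟨h1, F, hF⟩
    refine ⟨fun h => h1 (by rw [← hgf u, h, hgf]), Ψ F, fun w => ?_⟩
    rw [← hfg w, hmem, hF]
    constructor
    · rintro (h | h)
      · left; rw [h]; rfl
      · right; rw [h]; rfl
    · rintro (h | h)
      · left; rw [← hgf (g w), h]; exact hgf u
      · right; rw [← hgf (g w), h]; exact hgf v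

/-- A linear functional restricted to the vertices of a spectral polytope is an eigenvector. -/
theorem spectral_eigen {Q : Polytope e} (hQ : Q.IsSpectral) : ∃ θ : ℝ, ∀ l : E e →ₗ[ℝ] ℝ,
    ∀ v : Q.verts, (Q.adjMat.mulVec fun w => l (w : E e)) v = θ * l (v : E e) := by
  obtain ⟨θ, n, Φ, T, -, hΦ, -, hT⟩ := hQ
  refine ⟨θ, fun l v => ?_⟩
  replace hT : ∀ v : Q.verts, T (v : E e) = Φ v := hT
  have hmem : (fun w : Q.verts => l (w : E e)) ∈
      Submodule.span ℝ (Set.range fun j v => Φ v j) := by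
    have : (fun w : Q.verts => l (w : E e)) =
        ∑ j, (l (T.symm (Pi.single j 1))) • (fun v : Q.verts => Φ v j) := by
      funext w
      have h1 : (w : E e) = T.symm (T w) := by simp
      have h2 : T w = ∑ j, (T w j) • (Pi.single j 1 : Fin n → ℝ) := by
        funext k
        simp [Finset.sum_apply, Pi.single_apply]
      conv_lhs => rw [h1, h2]
      rw [map_sum, map_sum, Finset.sum_apply]
      refine Finset.sum_congr rfl fun j _ => ?_
      rw [map_smul, map_smul, hT w]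
      simp [mul_comm]
    rw [this]
    exact Submodule.sum_mem _ fun j _ =>
      Submodule.smul_mem _ _ (Submodule.subset_span ⟨j, rfl⟩)
  exact congrFun ((hΦ.2 _).2 hmem) v

/-! ### The example: 16 vertices in `ℝ⁴` -/

/-- Coordinates of the 16 vertices. -/
def vc : Fin 16 → Fin 4 → ℤ := ![![-2,0,-1,-1], ![-2,0,1,1], ![-1,-1,0,-2], ![-1,-1,0,2],
  ![-1,1,-2,0], ![-1,1,2,0], ![0,-2,-1,1], ![0,-2,1,-1], ![0,2,-1,1], ![0,2,1,-1],
  ![1,-1,-2,0], ![1,-1,2,0], ![1,1,0,-2], ![1,1,0,2], ![2,0,-1,-1], ![2,0,1,1]]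

/-- Bit masks of the neighbourhoods in the edge graph. -/
def mask : Fin 16 → ℕ := ![5758, 10685, 22243, 43475, 22347, 43911, 44189, 23662, 30266, 47413,
  57813, 53994, 52117, 51050, 48532, 32360]

/-- The adjacency relation of the edge graph. -/
def adjB (i j : Fin 16) : Bool := (mask i).testBit j.val

/-- Certificates for edges and non-edges. -/
def tab : Fin 16 → Fin 16 → ℕ := ![
  ![0, 541199, 508431, 603595, 540175, 445003, 540143, 100418, 168068, 508463, 470446, 493633,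
    375406, 495745, 403586, 473121],
  ![541199, 0, 478667, 573967, 637515, 542223, 101474, 542191, 573999, 169124, 461920, 611758,
    464032, 707182, 506880, 437411],
  ![508431, 478667, 0, 235552, 458752, 509455, 472430, 508400, 438272, 379469, 507376, 302311,
    508432, 506880, 375218, 470368],
  ![603595, 573967, 235552, 0, 572943, 492577, 573936, 609646, 703053, 438305, 268486, 574960,
    506880, 573968, 502081, 706994],
  ![540175, 637515, 458752, 572943, 0, 303136, 601549, 370688, 540208, 441006, 540176, 506880,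
    507440, 270598, 470642, 472480],
  ![445003, 542223, 509455, 492577, 303136, 0, 370721, 480717, 641710, 542256, 506880, 542224,
    304423, 575024, 504193, 611954],
  ![540143, 101474, 472430, 573936, 601549, 370721, 0, 541168, 436355, 506880, 540144, 641394,
    470336, 702931, 371018, 573937],
  ![100418, 542191, 508400, 609646, 370688, 480717, 541168, 0, 506880, 404642, 440690, 542192,
    379347, 503105, 508401, 372074],
  ![168068, 573999, 438272, 703053, 540208, 641710, 436355, 506880, 0, 541232, 601683, 505217,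
    472754, 574000, 540209, 439724],
  ![508463, 169124, 379469, 438305, 441006, 542256, 506880, 404642, 541232, 0, 472448, 480851,
    508464, 609970, 438668, 542257],
  ![470446, 461920, 507376, 268486, 540176, 506880, 540144, 440690, 601683, 472448, 0, 506086,
    473536, 572945, 540177, 637397],
  ![493633, 611758, 302311, 574960, 506880, 542224, 641394, 542192, 505217, 480851, 506086, 0,
    509457, 507361, 444885, 542225],
  ![375406, 464032, 508432, 506880, 507440, 304423, 470336, 379347, 472754, 508464, 473536,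
    509457, 0, 506152, 508433, 478805],
  ![495745, 707182, 506880, 573968, 270598, 575024, 702931, 503105, 574000, 609970, 572945,
    507361, 506152, 0, 603733, 573969],
  ![403586, 506880, 375218, 502081, 470642, 504193, 371018, 508401, 540209, 438668, 540177,
    444885, 508433, 603733, 0, 541201],
  ![473121, 437411, 470368, 706994, 472480, 611954, 573937, 372074, 439724, 542257, 637397,
    542225, 478805, 573969, 541201, 0]]

def fn (i j : Fin 16) (k : Fin 4) : ℤ := ((tab i j / 32 ^ k.val % 32 : ℕ) : ℤ) - 16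

def ce (i j : Fin 16) (k : Fin 4) : Fin 16 := Fin.ofNat 16 (tab i j / 32 ^ k.val % 32)

def dt (a b : Fin 4 → ℤ) : ℤ := a 0 * b 0 + a 1 * b 1 + a 2 * b 2 + a 3 * b 3

theorem edge_ok : ∀ i j, adjB i j = true → ∀ k, dt (fn i j) (vc k) ≤ dt (fn i j) (vc i) ∧
    (dt (fn i j) (vc k) = dt (fn i j) (vc i) ↔ (k = i ∨ k = j)) := by decide +kernel

theorem nonedge_ok : ∀ i j, i ≠ j → adjB i j = false → ce i j 0 ≠ i ∧ ce i j 0 ≠ j ∧
    ∀ k, 2 * (vc i k + vc j k) =
      vc (ce i j 0) k + vc (ce i j 1) k + vc (ce i j 2) k + vc (ce i j 3) k := by decide +kernel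

theorem adj_ne : ∀ i j, adjB i j = true → i ≠ j := by decide +kernel

theorem adj_symm : ∀ i j, adjB i j = adjB j i := by decide +kernel

/-- The Gram matrix. -/
def gr (i j : Fin 16) : ℤ := dt (vc i) (vc j)

theorem gr_lt : ∀ i j, gr i j ≤ 6 ∧ (gr i j = 6 ↔ j = i) := by decide +kernel

/-- Number of common neighbours. -/
def cn (i j : Fin 16) : ℕ := ∑ k, if (adjB i k && adjB k j) then 1 else 0

def c4 (i j : Fin 16) : ℕ :=
  ∑ k, if ((adjB i k && (cn i k == 4)) && (!(adjB k j) && (cn k j == 6))) then 1 else 0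

def c6 (i j : Fin 16) : ℕ :=
  ∑ k, if ((adjB i k && (cn i k == 4)) && (adjB k j && (cn k j == 4))) then 1 else 0

def gf (a : Bool) (n x y : ℕ) : ℤ :=
  if a then (if n = 6 then 4 else if n = 3 then 0 else if x = 0 then 2 else 0)
  else (if n = 9 then 6 else if n = 7 then 0 else if n = 4 then -2 else if y = 0 then -4 else -6)

theorem gr_eq : ∀ i j, gr i j = gf (adjB i j) (cn i j) (c4 i j) (c6 i j) := by decide +kernel

theorem gr_inv (ψ : Equiv.Perm (Fin 16)) (h : ∀ i j, adjB (ψ i) (ψ j) = adjB i j) (i j : Fin 16) :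
    gr (ψ i) (ψ j) = gr i j := by
  have h1 : ∀ i j, cn (ψ i) (ψ j) = cn i j := by
    intro i j
    unfold cn
    rw [← Equiv.sum_comp ψ]
    simp only [h]
  have h2 : c4 (ψ i) (ψ j) = c4 i j := by
    unfold c4
    rw [← Equiv.sum_comp ψ]
    simp only [h, h1]
  have h3 : c6 (ψ i) (ψ j) = c6 i j := by
    unfold c6
    rw [← Equiv.sum_comp ψ]
    simp only [h, h1]
  rw [gr_eq, gr_eq, h, h1, h2, h3]

theorem frame : ∀ k m, ∑ i, vc i k * vc i m = if k = m then 24 else 0 := by decide +kernel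

/-- The vertices as vectors. -/
noncomputable def vv (i : Fin 16) : E 4 := WithLp.toLp 2 fun k => (vc i k : ℝ)

theorem vv_apply (i : Fin 16) (k : Fin 4) : vv i k = (vc i k : ℝ) := rfl

theorem inner_vv (i : Fin 16) (x : E 4) : inner ℝ (vv i) x = ∑ k, (vc i k : ℝ) * x k := by
  simp [PiLp.inner_apply, vv_apply, mul_comm]

theorem inner_vv_vv (i j : Fin 16) : inner ℝ (vv i) (vv j) = (gr i j : ℝ) := by
  rw [inner_vv]
  simp [gr, dt, Fin.sum_univ_four, vv_apply]

theorem frame_real (x : E 4) : ∑ i, (inner ℝ (vv i) x) • vv i = (24 : ℝ) • x := by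
  ext k
  have h1 : (∑ i, (inner ℝ (vv i) x) • vv i) k = ∑ i, (inner ℝ (vv i) x) * (vc i k : ℝ) := by
    rw [WithLp.ofLp_sum, Finset.sum_apply]
    rfl
  rw [h1]
  have h2 : ∀ i, (inner ℝ (vv i) x) * (vc i k : ℝ) = ∑ m, ((vc i m * vc i k : ℤ) : ℝ) * x m := by
    intro i
    rw [inner_vv, Finset.sum_mul]
    refine Finset.sum_congr rfl fun m _ => ?_
    push_cast
    ring
  rw [Finset.sum_congr rfl fun i _ => h2 i, Finset.sum_comm]
  have h3 : ∀ m, ∑ i, ((vc i m * vc i k : ℤ) : ℝ) * x m = if m = k then 24 * x m else 0 := by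
    intro m
    rw [← Finset.sum_mul, ← Int.cast_sum, frame m k]
    split_ifs <;> simp
  rw [Finset.sum_congr rfl fun m _ => h3 m]
  simp

theorem exists_isometry (φ : Equiv.Perm (Fin 16)) (h : ∀ i j, gr (φ i) (φ j) = gr i j) :
    ∃ g : E 4 ≃ₗᵢ[ℝ] E 4, ∀ i, g (vv i) = vv (φ i) := by
  let T : E 4 →ₗ[ℝ] E 4 :=
    { toFun := fun x => (1 / 24 : ℝ) • ∑ i, (inner ℝ (vv i) x) • vv (φ i)
      map_add' := fun x y => by
        simp only [inner_add_right, add_smul, Finset.sum_add_distrib, smul_add]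
      map_smul' := fun c x => by
        simp only [inner_smul_right, mul_smul, ← Finset.smul_sum, RingHom.id_apply]
        rw [smul_comm] }
  have hT : ∀ x, T x = (1 / 24 : ℝ) • ∑ i, (inner ℝ (vv i) x) • vv (φ i) := fun x => rfl
  have hn : ∀ x, ‖T x‖ = ‖x‖ := by
    intro x
    have hx : x = (1 / 24 : ℝ) • ∑ i, (inner ℝ (vv i) x) • vv i := by
      rw [frame_real, smul_smul]; norm_num
    have key : ∀ c : Fin 16 → ℝ, inner ℝ (∑ i, c i • vv (φ i)) (∑ i, c i • vv (φ i)) =
        inner ℝ (∑ i, c i • vv i) (∑ i, c i • vv i) := by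
      intro c
      simp only [sum_inner, inner_sum, inner_smul_left, inner_smul_right, inner_vv_vv, h]
    have h2 : ‖∑ i, (inner ℝ (vv i) x) • vv (φ i)‖ = ‖∑ i, (inner ℝ (vv i) x) • vv i‖ := by
      have := key fun i => inner ℝ (vv i) x
      rw [real_inner_self_eq_norm_sq, real_inner_self_eq_norm_sq] at this
      exact (sq_eq_sq₀ (norm_nonneg _) (norm_nonneg _)).1 this
    rw [hT, norm_smul, h2, ← norm_smul, ← hx]
  let L : E 4 →ₗᵢ[ℝ] E 4 := ⟨T, hn⟩
  refine ⟨L.toLinearIsometryEquiv rfl, fun j => ?_⟩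
  change T (vv j) = _
  rw [hT]
  have h1 : ∑ i, (inner ℝ (vv i) (vv j)) • vv (φ i) =
      ∑ i, (inner ℝ (vv i) (vv (φ j))) • vv i := by
    rw [← Equiv.sum_comp φ fun i => (inner ℝ (vv i) (vv (φ j))) • vv i]
    refine Finset.sum_congr rfl fun i _ => ?_
    rw [inner_vv_vv, inner_vv_vv, h]
  rw [h1, frame_real, smul_smul]
  norm_num

theorem vv_inj {i j : Fin 16} (h : vv i = vv j) : i = j := by
  have h1 : (gr i j : ℝ) = gr i i := by rw [← inner_vv_vv, ← inner_vv_vv, h]
  have h2 : gr i j = 6 := by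
    have : gr i j = gr i i := by exact_mod_cast h1
    rw [this]; exact (gr_lt i i).2.2 rfl
  exact ((gr_lt i j).2.1 h2).symm

/-- The linear functional with integer coefficients `a`. -/
noncomputable def fl (a : Fin 4 → ℤ) : E 4 →L[ℝ] ℝ := ∑ k, (a k : ℝ) • EuclideanSpace.proj k

theorem fl_vv (a : Fin 4 → ℤ) (i : Fin 16) : fl a (vv i) = (dt a (vc i) : ℝ) := by
  simp [fl, dt, Fin.sum_univ_four, vv_apply]

/-- The set of vertices. -/
noncomputable def vs : Finset (E 4) := by
  classical exact Finset.univ.image vv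

theorem mem_vs {x : E 4} : x ∈ vs ↔ ∃ i, vv i = x := by
  classical simp [vs]

theorem exposed_of_int (a : Fin 4 → ℤ) (c : ℤ) (h : ∀ k, dt a (vc k) ≤ c) :
    IsExposed ℝ (convexHull ℝ (vs : Set (E 4))) (convexHull ℝ (vv '' {k | dt a (vc k) = c})) := by
  have := isExposed_of_le (s := vs) (fl a) c (by
    intro v hv
    obtain ⟨i, rfl⟩ := mem_vs.1 hv
    rw [fl_vv]
    exact_mod_cast h i)
  convert this using 2
  ext v
  constructor
  · rintro ⟨k, hk, rfl⟩
    refine ⟨mem_vs.2 ⟨k, rfl⟩, ?_⟩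
    rw [fl_vv]
    exact_mod_cast hk
  · rintro ⟨hv, hv'⟩
    obtain ⟨i, rfl⟩ := mem_vs.1 hv
    rw [fl_vv] at hv'
    exact ⟨i, by exact_mod_cast hv', rfl⟩

/-- The polytope. -/
noncomputable def PP : Polytope 4 where
  verts := vs
  vertex := by
    intro v hv
    obtain ⟨i, rfl⟩ := mem_vs.1 hv
    have := exposed_of_int (vc i) 6 (fun k => (gr_lt i k).1)
    have h2 : {k | dt (vc i) (vc k) = 6} = {i} := by
      ext k; exact (gr_lt i k).2
    rwa [h2, Set.image_singleton, convexHull_singleton] at this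

/-- The `i`-th vertex. -/
noncomputable def pv (i : Fin 16) : PP.verts := ⟨vv i, mem_vs.2 ⟨i, rfl⟩⟩

theorem pv_bij : Function.Bijective pv := by
  constructor
  · intro i j h
    exact vv_inj (congrArg Subtype.val h)
  · rintro ⟨v, hv⟩
    obtain ⟨i, rfl⟩ := mem_vs.1 hv
    exact ⟨i, rfl⟩

/-- The numbering of the vertices. -/
noncomputable def pe : Fin 16 ≃ PP.verts := Equiv.ofBijective pv pv_bij

theorem pe_val (i : Fin 16) : ((pe i : PP.verts) : E 4) = vv i := rfl

theorem adj_pe (i j : Fin 16) : PP.edgeGraph.Adj (pe i) (pe j) ↔ adjB i j = true := by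
  constructor
  · rintro ⟨hne, hexp⟩
    by_contra hadj
    have hij : i ≠ j := fun h => hne (by rw [h])
    obtain ⟨h0, h0', hsum⟩ := nonedge_ok i j hij (by simpa using hadj)
    obtain ⟨l, hl⟩ := hexp ⟨_, left_mem_segment ℝ _ _⟩
    have hi : vv i ∈ segment ℝ ((pe i : PP.verts) : E 4) ((pe j : PP.verts) : E 4) :=
      left_mem_segment ℝ _ _
    have hj : vv j ∈ segment ℝ ((pe i : PP.verts) : E 4) ((pe j : PP.verts) : E 4) :=
      right_mem_segment ℝ _ _
    have hbody : ∀ k, vv k ∈ PP.body := fun k => subset_convexHull ℝ _ (mem_vs.2 ⟨k, rfl⟩)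
    rw [hl] at hi hj
    have e1 : l (vv i) = l (vv j) := le_antisymm (hj.2 _ (hbody i)) (hi.2 _ (hbody j))
    have hvec : (2 : ℝ) • (vv i + vv j) =
        vv (ce i j 0) + vv (ce i j 1) + vv (ce i j 2) + vv (ce i j 3) := by
      ext k
      have := hsum k
      have h2 : ((2 * (vc i k + vc j k) : ℤ) : ℝ) = ((vc (ce i j 0) k + vc (ce i j 1) k +
        vc (ce i j 2) k + vc (ce i j 3) k : ℤ) : ℝ) := by rw [this]
      push_cast at h2
      simpa [vv_apply, mul_add] using h2
    have hl2 := congrArg l hvec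
    simp only [map_smul, map_add, smul_eq_mul] at hl2
    have b0 := hi.2 _ (hbody (ce i j 0))
    have b1 := hi.2 _ (hbody (ce i j 1))
    have b2 := hi.2 _ (hbody (ce i j 2))
    have b3 := hi.2 _ (hbody (ce i j 3))
    have e0 : l (vv (ce i j 0)) = l (vv i) := by linarith
    have hm : vv (ce i j 0) ∈ segment ℝ ((pe i : PP.verts) : E 4) ((pe j : PP.verts) : E 4) := by
      rw [hl]
      exact ⟨hbody _, fun y hy => by rw [e0]; exact hi.2 y hy⟩
    rcases vertex_mem_segment PP (pe i) (pe j) (pe (ce i j 0)) hm with h | h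
    · exact h0 (pe.injective h)
    · exact h0' (pe.injective h)
  · intro h
    refine ⟨fun h' => adj_ne i j h (pe.injective h'), ?_⟩
    have h1 := edge_ok i j h
    have := exposed_of_int (fn i j) (dt (fn i j) (vc i)) fun k => (h1 k).1
    have h2 : {k | dt (fn i j) (vc k) = dt (fn i j) (vc i)} = {i, j} := by
      ext k; exact (h1 k).2
    rw [h2, Set.image_pair, convexHull_pair] at this
    exact this

theorem image_body (g : E 4 ≃ₗᵢ[ℝ] E 4) (φ : Equiv.Perm (Fin 16)) (h : ∀ i, g (vv i) = vv (φ i)) :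
    g ∈ PP.Aut := by
  change (g : E 4 → E 4) '' PP.body = PP.body
  have h1 : (g : E 4 → E 4) '' PP.body =
      convexHull ℝ ((g : E 4 → E 4) '' (vs : Set (E 4))) :=
    LinearMap.image_convexHull (g.toLinearEquiv : E 4 →ₗ[ℝ] E 4) _
  rw [h1]
  change _ = convexHull ℝ (vs : Set (E 4))
  congr 1
  ext x
  constructor
  · rintro ⟨y, hy, rfl⟩
    obtain ⟨i, rfl⟩ := mem_vs.1 hy
    rw [h]
    exact mem_vs.2 ⟨_, rfl⟩
  · intro hx
    obtain ⟨i, rfl⟩ := mem_vs.1 hx
    refine ⟨vv (φ.symm i), mem_vs.2 ⟨_, rfl⟩, ?_⟩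
    rw [h]; simp

theorem exists_aut (φ : Equiv.Perm (Fin 16)) (h : ∀ i j, gr (φ i) (φ j) = gr i j) :
    ∃ g ∈ PP.Aut, ∀ i, g (vv i) = vv (φ i) := by
  obtain ⟨g, hg⟩ := exists_isometry φ h
  exact ⟨g, image_body g φ hg, hg⟩

/-- Every Gram-preserving self-map of the index set is induced by an element of `Aut`. -/
theorem exists_aut' (f : Fin 16 → Fin 16) (h : ∀ i j, gr (f i) (f j) = gr i j) :
    ∃ g ∈ PP.Aut, ∀ i, g (vv i) = vv (f i) := by
  have hinj : Function.Injective f := by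
    intro i j hij
    have : gr i j = 6 := by rw [← h, hij]; exact (gr_lt _ _).2.2 rfl
    exact ((gr_lt i j).2.1 this).symm
  exact exists_aut (Equiv.ofBijective f (Finite.injective_iff_bijective.1 hinj)) h

/-- Symmetries moving the vertex `0` to the vertex `i`. -/
def sg : Fin 16 → Fin 16 → Fin 16 := ![
  ![0, 1, 2, 3, 4, 5, 6, 7, 8, 9, 10, 11, 12, 13, 14, 15],
  ![1, 0, 3, 2, 5, 4, 7, 6, 9, 8, 11, 10, 13, 12, 15, 14],
  ![2, 12, 0, 14, 7, 9, 10, 4, 11, 5, 6, 8, 1, 15, 3, 13],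
  ![3, 13, 1, 15, 6, 8, 11, 5, 10, 4, 7, 9, 0, 14, 2, 12],
  ![4, 10, 0, 14, 8, 6, 12, 2, 13, 3, 9, 7, 1, 15, 5, 11],
  ![5, 11, 1, 15, 9, 7, 13, 3, 12, 2, 8, 6, 0, 14, 4, 10],
  ![6, 7, 3, 2, 10, 11, 0, 1, 14, 15, 4, 5, 13, 12, 8, 9],
  ![7, 6, 2, 3, 11, 10, 1, 0, 15, 14, 5, 4, 12, 13, 9, 8],
  ![8, 9, 4, 5, 13, 12, 1, 0, 15, 14, 3, 2, 10, 11, 6, 7],
  ![9, 8, 5, 4, 12, 13, 0, 1, 14, 15, 2, 3, 11, 10, 7, 6],
  ![10, 4, 6, 8, 14, 0, 13, 3, 12, 2, 15, 1, 7, 9, 11, 5],
  ![11, 5, 7, 9, 15, 1, 12, 2, 13, 3, 14, 0, 6, 8, 10, 4],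
  ![12, 2, 9, 7, 14, 0, 11, 5, 10, 4, 15, 1, 8, 6, 13, 3],
  ![13, 3, 8, 6, 15, 1, 10, 4, 11, 5, 14, 0, 9, 7, 12, 2],
  ![14, 15, 10, 11, 12, 13, 7, 6, 9, 8, 2, 3, 4, 5, 0, 1],
  ![15, 14, 11, 10, 13, 12, 6, 7, 8, 9, 3, 2, 5, 4, 1, 0]]

theorem sg_zero : ∀ i, sg i 0 = i := by decide +kernel

theorem sg_gr : ∀ a i j, gr (sg a i) (sg a j) = gr i j := by decide +kernel

theorem realizes : PP.RealizesSymmetries := by
  intro φ
  let ψ : Equiv.Perm (Fin 16) := (pe.trans φ.toEquiv).trans pe.symm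
  have hψ : ∀ i, pe (ψ i) = φ (pe i) := fun i => by simp [ψ]
  have hadj : ∀ i j, adjB (ψ i) (ψ j) = adjB i j := by
    intro i j
    rw [Bool.eq_iff_iff, ← adj_pe, ← adj_pe, hψ, hψ]
    exact φ.map_adj_iff
  obtain ⟨g, hg, hg'⟩ := exists_aut ψ (gr_inv ψ hadj)
  refine ⟨g, hg, fun v => ?_⟩
  obtain ⟨i, rfl⟩ := pe.surjective v
  change g ((pe i : PP.verts) : E 4) = _
  rw [pe_val, hg', ← pe_val, hψ]

theorem transitive : PP.VertexTransitive := by
  intro u v
  obtain ⟨i, rfl⟩ := pe.surjective u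
  obtain ⟨j, rfl⟩ := pe.surjective v
  rw [pe_val, pe_val]
  obtain ⟨g, hg, hg'⟩ := exists_aut' (sg i) (sg_gr i)
  obtain ⟨k, hk, hk'⟩ := exists_aut' (sg j) (sg_gr j)
  refine ⟨g.symm.trans k, ?_, ?_⟩
  · change (k ∘ g.symm) '' PP.body = PP.body
    rw [Set.image_comp]
    have hg1 : (g.symm : E 4 → E 4) '' PP.body = PP.body := by
      have : (g : E 4 → E 4) '' PP.body = PP.body := hg
      conv_lhs => rw [← this]
      rw [← Set.image_comp]
      simp
    rw [hg1]
    exact hk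
  · have h1 : g.symm (vv i) = vv 0 := by
      rw [LinearIsometryEquiv.symm_apply_eq, hg', sg_zero]
    change k (g.symm (vv i)) = vv j
    rw [h1, hk', sg_zero]

/-! ### Full dimension, barycenter, irreducibility -/

/-- The coordinate vectors. -/
noncomputable def ek (k : Fin 4) : E 4 := EuclideanSpace.single k 1

theorem top_of_ek (W : Submodule ℝ (E 4)) (h : ∀ k, ek k ∈ W) : W = ⊤ := by
  rw [eq_top_iff]
  intro x _
  have : x = ∑ k, x k • ek k := by
    ext m
    rw [WithLp.ofLp_sum, Finset.sum_apply]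
    simp [ek, Pi.single_apply]
  rw [this]
  exact Submodule.sum_mem _ fun k _ => Submodule.smul_mem _ _ (h k)

/-- The four generators. -/
def gn : Fin 4 → Fin 16 → Fin 16 := ![
  ![14, 15, 12, 13, 10, 11, 8, 9, 6, 7, 4, 5, 2, 3, 0, 1],
  ![7, 6, 2, 3, 11, 10, 1, 0, 15, 14, 5, 4, 12, 13, 9, 8],
  ![14, 15, 10, 11, 12, 13, 7, 6, 9, 8, 2, 3, 4, 5, 0, 1],
  ![11, 5, 7, 9, 15, 1, 12, 2, 13, 3, 14, 0, 6, 8, 10, 4]]

theorem gn_gr : ∀ a i j, gr (gn a i) (gn a j) = gr i j := by decide +kernel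

/-- The matrices of the four generators. -/
def gm : Fin 4 → Fin 4 → Fin 4 → ℤ := ![
  ![![-1, 0, 0, 0], ![0, -1, 0, 0], ![0, 0, 1, 0], ![0, 0, 0, 1]],
  ![![0, 1, 0, 0], ![1, 0, 0, 0], ![0, 0, -1, 0], ![0, 0, 0, 1]],
  ![![-1, 0, 0, 0], ![0, 1, 0, 0], ![0, 0, 0, 1], ![0, 0, 1, 0]],
  ![![0, 0, -1, 0], ![0, 0, 0, 1], ![-1, 0, 0, 0], ![0, 1, 0, 0]]]

theorem gm_ok : ∀ a k m, ∑ i, vc i m * vc (gn a i) k = 24 * gm a k m := by decide +kernel

theorem exists_gen (a : Fin 4) : ∃ g ∈ PP.Aut, ∀ x k, g x k = ∑ m, (gm a k m : ℝ) * x m := by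
  obtain ⟨g, hg, hg'⟩ := exists_aut' (gn a) (gn_gr a)
  refine ⟨g, hg, fun x k => ?_⟩
  have hx : x = (1 / 24 : ℝ) • ∑ i, (inner ℝ (vv i) x) • vv i := by
    rw [frame_real, smul_smul]; norm_num
  have h1 : g x = (1 / 24 : ℝ) • ∑ i, (inner ℝ (vv i) x) • vv (gn a i) := by
    conv_lhs => rw [hx]
    simp only [map_smul, map_sum, hg']
  rw [h1]
  have h2 : ((1 / 24 : ℝ) • ∑ i, (inner ℝ (vv i) x) • vv (gn a i)) k =
      (1 / 24 : ℝ) * ∑ i, (inner ℝ (vv i) x) * (vc (gn a i) k : ℝ) := by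
    rw [PiLp.smul_apply, WithLp.ofLp_sum, Finset.sum_apply]
    rfl
  rw [h2]
  have h3 : ∀ i, (inner ℝ (vv i) x) * (vc (gn a i) k : ℝ) =
      ∑ m, ((vc i m * vc (gn a i) k : ℤ) : ℝ) * x m := by
    intro i
    rw [inner_vv, Finset.sum_mul]
    refine Finset.sum_congr rfl fun m _ => ?_
    push_cast
    ring
  rw [Finset.sum_congr rfl fun i _ => h3 i, Finset.sum_comm, Finset.mul_sum]
  refine Finset.sum_congr rfl fun m _ => ?_
  rw [← Finset.sum_mul, ← Int.cast_sum, gm_ok]
  push_cast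
  ring

theorem irreducible : PP.Irreducible := by
  intro W hW
  by_cases h0 : W = ⊥
  · exact Or.inl h0
  right
  obtain ⟨x, hx, hx0⟩ := Submodule.exists_mem_ne_zero_of_ne_bot h0
  obtain ⟨k, hk⟩ : ∃ k, x k ≠ 0 := by
    by_contra h
    push Not at h
    exact hx0 (by ext k; exact h k)
  replace hW : ∀ g ∈ PP.Aut, ∀ x ∈ W, g x ∈ W := hW
  obtain ⟨g0, hg0, e0⟩ := exists_gen 0
  obtain ⟨g1, hg1, e1⟩ := exists_gen 1
  obtain ⟨g2, hg2, e2⟩ := exists_gen 2
  obtain ⟨g3, hg3, e3⟩ := exists_gen 3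
  have w0 := hW g0 hg0
  have w1 := hW g1 hg1
  have w2 := hW g2 hg2
  have w3 := hW g3 hg3
  -- isolate the coordinates
  have hy : x - g0 x ∈ W := W.sub_mem hx (w0 x hx)
  have hz : x + g0 x ∈ W := W.add_mem hx (w0 x hx)
  have f0 : (x - g0 x) - g2 (x - g0 x) ∈ W := W.sub_mem hy (w2 _ hy)
  have f1 : (x - g0 x) + g2 (x - g0 x) ∈ W := W.add_mem hy (w2 _ hy)
  have f2 : (x + g0 x) - g1 (x + g0 x) ∈ W := W.sub_mem hz (w1 _ hz)
  have f3 : (x + g0 x) + g1 (x + g0 x) ∈ W := W.add_mem hz (w1 _ hz)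
  have F0 : (x - g0 x) - g2 (x - g0 x) = (4 * x 0) • ek 0 := by
    ext k; fin_cases k <;> simp [e0, e2, gm, ek, Fin.sum_univ_four] <;> ring
  have F1 : (x - g0 x) + g2 (x - g0 x) = (4 * x 1) • ek 1 := by
    ext k; fin_cases k <;> simp [e0, e2, gm, ek, Fin.sum_univ_four] <;> ring
  have F2 : (x + g0 x) - g1 (x + g0 x) = (4 * x 2) • ek 2 := by
    ext k; fin_cases k <;> simp [e0, e1, gm, ek, Fin.sum_univ_four] <;> ring
  have F3 : (x + g0 x) + g1 (x + g0 x) = (4 * x 3) • ek 3 := by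
    ext k; fin_cases k <;> simp [e0, e1, gm, ek, Fin.sum_univ_four] <;> ring
  rw [F0] at f0
  rw [F1] at f1
  rw [F2] at f2
  rw [F3] at f3
  -- moving the coordinate vectors
  have m01 : ek 0 ∈ W → ek 1 ∈ W := fun h => by
    have : g1 (ek 0) = ek 1 := by
      ext k; fin_cases k <;> simp [e1, gm, ek, Fin.sum_univ_four]
    rw [← this]; exact w1 _ h
  have m10 : ek 1 ∈ W → ek 0 ∈ W := fun h => by
    have : g1 (ek 1) = ek 0 := by
      ext k; fin_cases k <;> simp [e1, gm, ek, Fin.sum_univ_four]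
    rw [← this]; exact w1 _ h
  have m23 : ek 2 ∈ W → ek 3 ∈ W := fun h => by
    have : g2 (ek 2) = ek 3 := by
      ext k; fin_cases k <;> simp [e2, gm, ek, Fin.sum_univ_four]
    rw [← this]; exact w2 _ h
  have m32 : ek 3 ∈ W → ek 2 ∈ W := fun h => by
    have : g2 (ek 3) = ek 2 := by
      ext k; fin_cases k <;> simp [e2, gm, ek, Fin.sum_univ_four]
    rw [← this]; exact w2 _ h
  have m13 : ek 1 ∈ W → ek 3 ∈ W := fun h => by
    have : g3 (ek 1) = ek 3 := by
      ext k; fin_cases k <;> simp [e3, gm, ek, Fin.sum_univ_four]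
    rw [← this]; exact w3 _ h
  have m31 : ek 3 ∈ W → ek 1 ∈ W := fun h => by
    have : g3 (ek 3) = ek 1 := by
      ext k; fin_cases k <;> simp [e3, gm, ek, Fin.sum_univ_four]
    rw [← this]; exact w3 _ h
  have all : ek 1 ∈ W → W = ⊤ := fun h => by
    refine top_of_ek W fun k => ?_
    fin_cases k
    · exact m10 h
    · exact h
    · exact m32 (m13 h)
    · exact m13 h
  have sc : ∀ (c : ℝ) (v : E 4), c ≠ 0 → (4 * c) • v ∈ W → v ∈ W := fun c v hc hv =>
    (W.smul_mem_iff (mul_ne_zero (by norm_num) hc)).1 hv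
  fin_cases k
  · exact all (m01 (sc _ _ hk f0))
  · exact all (sc _ _ hk f1)
  · exact all (m31 (m23 (sc _ _ hk f2)))
  · exact all (m31 (sc _ _ hk f3))

theorem centered : PP.Centered := by
  classical
  change ∑ v ∈ vs, v = 0
  have : vs = Finset.univ.image vv := by
    ext x; simp [mem_vs]
  rw [this, Finset.sum_image fun i _ j _ h => vv_inj h]
  ext k
  rw [WithLp.ofLp_sum, Finset.sum_apply]
  have h : ∀ k, ∑ i, vc i k = 0 := by decide +kernel
  have h2 : ((∑ i, vc i k : ℤ) : ℝ) = 0 := by rw [h]; simp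
  rw [Int.cast_sum] at h2
  exact h2

theorem fullDim : PP.FullDimensional := by
  have hbody : ∀ k, vv k ∈ PP.body := fun k => subset_convexHull ℝ _ (mem_vs.2 ⟨k, rfl⟩)
  have hne : (PP.body).Nonempty := ⟨_, hbody 0⟩
  change (interior PP.body).Nonempty
  have hcv : Convex ℝ PP.body := convex_convexHull ℝ _
  rw [hcv.interior_nonempty_iff_affineSpan_eq_top]
  rw [AffineSubspace.affineSpan_eq_top_iff_vectorSpan_eq_top_of_nonempty (k := ℝ) (V := E 4)
    (P := E 4) hne]
  apply top_of_ek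
  have hk : ∀ i j, vv i - vv j ∈ vectorSpan ℝ PP.body := fun i j =>
    vsub_mem_vectorSpan ℝ (hbody i) (hbody j)
  have sc : ∀ v : E 4, (4 : ℝ) • v ∈ vectorSpan ℝ PP.body → v ∈ vectorSpan ℝ PP.body :=
    fun v hv => (Submodule.smul_mem_iff _ (by norm_num)).1 hv
  have E0 : vv 14 - vv 0 = (4 : ℝ) • ek 0 := by
    ext k; fin_cases k <;> simp [ek, vv_apply, vc] <;> norm_num
  have E1 : vv 8 - vv 6 = (4 : ℝ) • ek 1 := by
    ext k; fin_cases k <;> simp [ek, vv_apply, vc] <;> norm_num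
  have E2 : vv 5 - vv 4 = (4 : ℝ) • ek 2 := by
    ext k; fin_cases k <;> simp [ek, vv_apply, vc] <;> norm_num
  have E3 : vv 3 - vv 2 = (4 : ℝ) • ek 3 := by
    ext k; fin_cases k <;> simp [ek, vv_apply, vc] <;> norm_num
  intro k
  fin_cases k
  · exact sc _ (E0 ▸ hk 14 0)
  · exact sc _ (E1 ▸ hk 8 6)
  · exact sc _ (E2 ▸ hk 5 4)
  · exact sc _ (E3 ▸ hk 3 2)

/-! ### No spectral polytope is combinatorially equivalent to the example -/

/-- The integer adjacency matrix. -/
def aZ (i j : Fin 16) : ℤ := if adjB i j then 1 else 0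

/-- The action of the adjacency matrix on integer vectors. -/
def av (w : Fin 16 → ℤ) (i : Fin 16) : ℤ := ∑ j, aZ i j * w j

theorem av_step {θ : ℝ} {g : Fin 16 → ℝ} (hA : ∀ i, ∑ j, (aZ i j : ℝ) * g j = θ * g i)
    {w : Fin 16 → ℤ} (h : ∑ i, (w i : ℝ) * g i = 0) : ∑ i, (av w i : ℝ) * g i = 0 := by
  have h1 : ∀ i, (av w i : ℝ) * g i = ∑ j, (w j : ℝ) * ((aZ j i : ℝ) * g i) := by
    intro i
    rw [av, Int.cast_sum, Finset.sum_mul]
    refine Finset.sum_congr rfl fun j _ => ?_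
    have : aZ i j = aZ j i := by unfold aZ; rw [adj_symm]
    rw [this]
    push_cast
    ring
  rw [Finset.sum_congr rfl fun i _ => h1 i, Finset.sum_comm]
  have h2 : ∀ j, ∑ i, (w j : ℝ) * ((aZ j i : ℝ) * g i) = θ * ((w j : ℝ) * g j) := by
    intro j
    rw [← Finset.mul_sum, hA]
    ring
  rw [Finset.sum_congr rfl fun j _ => h2 j, ← Finset.mul_sum, h, mul_zero]

/-- `e_0 - e_s`. -/
def ds (s : Fin 16) (i : Fin 16) : ℤ := (if i = 0 then 1 else 0) - (if i = s then 1 else 0)

theorem comb_ok : ∀ i, 3 * ds 15 i = ds 1 i - ds 2 i + ds 3 i - 2 * ds 6 i - ds 7 i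
    + av (ds 1) i + 3 * av (ds 3) i + av (ds 6) i - 4 * av (ds 7) i
    + 4 * av (av (ds 2)) i + av (av (ds 6)) i - av (av (ds 7)) i
    + av (av (av (ds 2))) i := by decide +kernel

theorem no_eigen {θ : ℝ} {g : Fin 16 → ℝ} (hA : ∀ i, ∑ j, (aZ i j : ℝ) * g j = θ * g i)
    (h1 : g 1 = g 0) (h2 : g 2 = g 0) (h3 : g 3 = g 0) (h6 : g 6 = g 0) (h7 : g 7 = g 0) :
    g 15 = g 0 := by
  have hd : ∀ s, ∑ i, (ds s i : ℝ) * g i = g 0 - g s := by
    intro s
    simp [ds, sub_mul, Finset.sum_sub_distrib]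
  have d1 : ∑ i, (ds 1 i : ℝ) * g i = 0 := by rw [hd, h1, sub_self]
  have d2 : ∑ i, (ds 2 i : ℝ) * g i = 0 := by rw [hd, h2, sub_self]
  have d3 : ∑ i, (ds 3 i : ℝ) * g i = 0 := by rw [hd, h3, sub_self]
  have d6 : ∑ i, (ds 6 i : ℝ) * g i = 0 := by rw [hd, h6, sub_self]
  have d7 : ∑ i, (ds 7 i : ℝ) * g i = 0 := by rw [hd, h7, sub_self]
  have a1 := av_step hA d1
  have a3 := av_step hA d3
  have a6 := av_step hA d6
  have a7 := av_step hA d7
  have b2 := av_step hA (av_step hA d2)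
  have b6 := av_step hA a6
  have b7 := av_step hA a7
  have c2 := av_step hA b2
  have key : 3 * ∑ i, (ds 15 i : ℝ) * g i =
      (∑ i, (ds 1 i : ℝ) * g i) - (∑ i, (ds 2 i : ℝ) * g i) + (∑ i, (ds 3 i : ℝ) * g i)
      - 2 * (∑ i, (ds 6 i : ℝ) * g i) - (∑ i, (ds 7 i : ℝ) * g i)
      + (∑ i, (av (ds 1) i : ℝ) * g i) + 3 * (∑ i, (av (ds 3) i : ℝ) * g i)
      + (∑ i, (av (ds 6) i : ℝ) * g i) - 4 * (∑ i, (av (ds 7) i : ℝ) * g i)
      + 4 * (∑ i, (av (av (ds 2)) i : ℝ) * g i) + (∑ i, (av (av (ds 6)) i : ℝ) * g i)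
      - (∑ i, (av (av (ds 7)) i : ℝ) * g i) + (∑ i, (av (av (av (ds 2))) i : ℝ) * g i) := by
    simp only [Finset.mul_sum, ← Finset.sum_sub_distrib, ← Finset.sum_add_distrib]
    refine Finset.sum_congr rfl fun i _ => ?_
    have := congrArg (Int.cast : ℤ → ℝ) (comb_ok i)
    push_cast at this
    linear_combination (g i) * this
  rw [d1, d2, d3, d6, d7, a1, a3, a6, a7, b2, b6, b7, c2, hd] at key
  linarith

theorem facet_ok : ∀ k, dt ![-1, -1, 0, 0] (vc k) ≤ 2 ∧
    (dt ![-1, -1, 0, 0] (vc k) = 2 ↔ (k = 0 ∨ k = 1 ∨ k = 2 ∨ k = 3 ∨ k = 6 ∨ k = 7)) := by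
  decide +kernel

/-- The facet `x₁ + x₂ = -2`. -/
noncomputable def facet : PP.Face :=
  ⟨_, exposed_of_int ![-1, -1, 0, 0] 2 fun k => (facet_ok k).1⟩

theorem mem_facet (i : Fin 16) : ((pe i : PP.verts) : E 4) ∈ facet.1 ↔
    dt ![-1, -1, 0, 0] (vc i) = 2 := by
  rw [pe_val]
  constructor
  · intro h
    have h1 : facet.1 ⊆ {x | fl ![-1, -1, 0, 0] x = 2} := by
      refine convexHull_min ?_ (convex_hyperplane (fl ![-1, -1, 0, 0]).isLinear 2)
      rintro _ ⟨k, hk, rfl⟩
      change fl ![-1, -1, 0, 0] (vv k) = 2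
      rw [fl_vv, hk]; norm_num
    have h2 : fl ![-1, -1, 0, 0] (vv i) = 2 := h1 h
    rw [fl_vv] at h2
    exact_mod_cast h2
  · intro h
    exact subset_convexHull ℝ _ ⟨i, h, rfl⟩

theorem not_spectral {n : ℕ} (Q : Polytope n) (hQ : Q.IsSpectral) : ¬ CombEquiv PP Q := by
  rintro ⟨Ψ⟩
  obtain ⟨ρ, hmem, hadj⟩ := transport Ψ
  obtain ⟨θ, hθ⟩ := spectral_eigen hQ
  have hF : ∀ i, ((ρ (pe i) : Q.verts) : E n) ∈ (Ψ facet).1 ↔
      dt ![-1, -1, 0, 0] (vc i) = 2 := fun i => by rw [hmem, mem_facet]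
  have hF0 : ((ρ (pe 0) : Q.verts) : E n) ∈ (Ψ facet).1 := (hF 0).2 (by decide)
  obtain ⟨l, hl⟩ := (Ψ facet).2 ⟨_, hF0⟩
  let g : Fin 16 → ℝ := fun i => l (ρ (pe i) : Q.verts)
  have hbody : ∀ w : Q.verts, (w : E n) ∈ Q.body := fun w => subset_convexHull ℝ _ w.2
  have hg : ∀ i, dt ![-1, -1, 0, 0] (vc i) = 2 → g i = g 0 := by
    intro i hi
    have h1 := (hF i).2 hi
    have h0 := hF0
    rw [hl] at h1 h0
    exact le_antisymm (h0.2 _ h1.1) (h1.2 _ h0.1)
  have hA : ∀ i, ∑ j, (aZ i j : ℝ) * g j = θ * g i := by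
    intro i
    have := hθ (l : E n →ₗ[ℝ] ℝ) (ρ (pe i))
    rw [Matrix.mulVec, dotProduct, ← Equiv.sum_comp (pe.trans ρ)] at this
    have h2 : θ * g i = θ * (l : E n →ₗ[ℝ] ℝ) ((ρ (pe i) : Q.verts) : E n) := rfl
    rw [h2, ← this]
    refine Finset.sum_congr rfl fun j _ => ?_
    have h3 : Q.adjMat (ρ (pe i)) ((pe.trans ρ) j) = (aZ i j : ℝ) := by
      change Q.adjMat (ρ (pe i)) (ρ (pe j)) = (aZ i j : ℝ)
      rw [Polytope.adjMat, SimpleGraph.adjMatrix_apply]
      have : Q.edgeGraph.Adj (ρ (pe i)) (ρ (pe j)) ↔ adjB i j = true := by rw [hadj, adj_pe]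
      simp only [this, aZ]
      split_ifs <;> simp
    rw [h3]
    rfl
  have h15 : g 15 = g 0 := no_eigen hA (hg 1 (by decide)) (hg 2 (by decide)) (hg 3 (by decide))
    (hg 6 (by decide)) (hg 7 (by decide))
  have : ((ρ (pe 15) : Q.verts) : E n) ∈ (Ψ facet).1 := by
    rw [hl]
    refine ⟨hbody _, fun y hy => ?_⟩
    have h0 := hF0
    rw [hl] at h0
    have h1 := h0.2 y hy
    change l y ≤ g 15
    rw [h15]
    exact h1
  exact absurd ((hF 15).1 this) (by decide)

/-- **MP_2354fb_co, Q1, answered in the negative.** There is a full-dimensional polytope in `ℝ⁴`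
with barycenter `0` which is vertex-transitive, realizes all symmetries of its edge graph, has an
irreducible symmetry group, and is not combinatorially equivalent to any spectral polytope. -/
theorem result : ∃ P : Polytope 4, P.FullDimensional ∧ P.Centered ∧ P.VertexTransitive ∧
    P.RealizesSymmetries ∧ P.Irreducible ∧
    ∀ (n : ℕ) (Q : Polytope n), Q.IsSpectral → ¬ CombEquiv P Q :=
  ⟨PP, fullDim, centered, transitive, realizes, irreducible, fun _ Q hQ => not_spectral Q hQ⟩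

end Pool.Agent.Results.MP_2354fb_co.NotSpectral
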